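import Mathlib

set_option autoImplicit false

namespace Pool.Agent.Q108.VZ

open SimpleGraph

variable {V W : Type} {G : SimpleGraph V} {H : SimpleGraph W} {k : ℕ}

/-- The `k`-distance domination number of a finite graph: the least number of elements of a set
`D` of vertices such that every vertex is at distance at most `k` from some element of `D`
(vertices in different components have distance `∞`). -/
noncomputable def gam (k : ℕ) (G : SimpleGraph V) : ℕ :=
  sInf {n : ℕ | ∃ D : Finset V, D.card = n ∧ ∀ v : V, ∃ u ∈ D, G.edist u v ≤ (k : ℕ∞)}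

theorem gam_le (D : Finset V) (hD : ∀ v, ∃ u ∈ D, G.edist u v ≤ (k:ℕ∞)) : gam k G ≤ D.card :=
  Nat.sInf_le ⟨D, rfl, hD⟩

theorem gam_spec [Fintype V] :
    ∃ D : Finset V, D.card = gam k G ∧ ∀ v : V, ∃ u ∈ D, G.edist u v ≤ (k : ℕ∞) := by
  have hne : {n : ℕ | ∃ D : Finset V, D.card = n ∧ ∀ v : V, ∃ u ∈ D, G.edist u v ≤ (k : ℕ∞)}.Nonempty :=
    ⟨_, Finset.univ, rfl, fun v => ⟨v, Finset.mem_univ _, by simp⟩⟩
  exact Nat.sInf_mem hne

theorem exists_far (D : Finset V) (hD : D.card < gam k G) :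
    ∃ v : V, ∀ u ∈ D, (k : ℕ∞) < G.edist u v := by
  by_contra hcon
  push Not at hcon
  exact absurd (gam_le D hcon) (by omega)

theorem between {u v : W} {x y : ℕ} (h : H.edist u v ≤ (x : ℕ∞) + y) :
    ∃ z, H.edist u z ≤ (x : ℕ∞) ∧ H.edist z v ≤ (y : ℕ∞) := by
  have hne : H.edist u v ≠ ⊤ := by
    intro h0; rw [h0] at h
    exact absurd h (by simp)
  obtain ⟨p, hp⟩ := exists_walk_of_edist_ne_top hne
  refine ⟨p.getVert x, ?_, ?_⟩
  · refine (edist_le (p.take x)).trans ?_
    rw [Walk.take_length]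
    exact_mod_cast min_le_left _ _
  · refine (edist_le (p.drop x)).trans ?_
    rw [Walk.drop_length]
    rw [← hp] at h
    have : p.length ≤ x + y := by exact_mod_cast h
    exact_mod_cast (by omega : p.length - x ≤ y)

section cov

variable {ι : Type} (a : ι → V) (b : ι → W)

/-- every point of the fibre over `v` which is covered by `i` is within `k` of `z` -/
def Abs (G : SimpleGraph V) (H : SimpleGraph W) (k : ℕ) (a : ι → V) (b : ι → W)
    (v : V) (i : ι) (z : W) : Prop :=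
  ∀ h : W, G.edist (a i) v + H.edist (b i) h ≤ (k:ℕ∞) → H.edist z h ≤ (k:ℕ∞)

/-- the relation `E ≤ D` -/
def Rd (G : SimpleGraph V) (H : SimpleGraph W) (a : ι → V) (b : ι → W) (i j : ι) : Prop :=
  H.edist (b i) (b j) ≤ G.edist (a i) (a j)

variable {a b}

theorem Rd.symm {i j : ι} (h : Rd G H a b i j) : Rd G H a b j i := by
  unfold Rd at *
  rw [edist_comm, G.edist_comm]
  exact h

theorem abs_self (v : V) (i : ι) : Abs G H k a b v i (b i) := by
  intro h hh
  exact le_trans (le_add_self) hh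

theorem abs_far {v : V} {i : ι} (z : W) (hf : (k : ℕ∞) < G.edist (a i) v) :
    Abs G H k a b v i z := by
  intro h hh
  exact absurd (le_trans (le_self_add) hh) (not_le.mpr hf)

theorem abs_star {l i : ι} (h : Rd G H a b l i) : Abs G H k a b (a l) i (b l) := by
  intro w hw
  calc H.edist (b l) w ≤ H.edist (b l) (b i) + H.edist (b i) w := H.edist_triangle
    _ ≤ G.edist (a l) (a i) + H.edist (b i) w := by gcongr; exact h
    _ = G.edist (a i) (a l) + H.edist (b i) w := by rw [G.edist_comm]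
    _ ≤ k := hw

theorem abs_merge (v : V) {i j : ι} (h : Rd G H a b i j) :
    ∃ z, Abs G H k a b v i z ∧ Abs G H k a b v j z := by
  by_cases hx : G.edist (a i) v = ⊤
  · exact ⟨b j, abs_far _ (by rw [hx]; exact ENat.natCast_lt_top k), abs_self v j⟩
  by_cases hy : G.edist (a j) v = ⊤
  · exact ⟨b i, abs_self v i, abs_far _ (by rw [hy]; exact ENat.natCast_lt_top k)⟩
  obtain ⟨x, hx'⟩ := ENat.ne_top_iff_exists.mp hx
  obtain ⟨y, hy'⟩ := ENat.ne_top_iff_exists.mp hy
  have hE : H.edist (b i) (b j) ≤ (x:ℕ∞) + y := by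
    rw [hx', hy']
    calc H.edist (b i) (b j) ≤ G.edist (a i) (a j) := h
      _ ≤ G.edist (a i) v + G.edist v (a j) := G.edist_triangle
      _ = _ := by rw [G.edist_comm (u := v)]
  obtain ⟨z, hz1, hz2⟩ := between hE
  refine ⟨z, ?_, ?_⟩
  · intro w hw
    calc H.edist z w ≤ H.edist z (b i) + H.edist (b i) w := H.edist_triangle
      _ ≤ (x:ℕ∞) + H.edist (b i) w := by gcongr; rw [H.edist_comm]; exact hz1
      _ ≤ k := by rw [hx']; exact hw
  · intro w hw
    calc H.edist z w ≤ H.edist z (b j) + H.edist (b j) w := H.edist_triangle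
      _ ≤ (y:ℕ∞) + H.edist (b j) w := by gcongr
      _ ≤ k := by rw [hy']; exact hw

variable (hcov : ∀ v w, ∃ i, G.edist (a i) v + H.edist (b i) w ≤ (k:ℕ∞))
variable (hG : ∀ u : V, ∃ v : V, (k : ℕ∞) < G.edist u v)

include hcov in
theorem contra {n : ℕ} (hH : ∀ D : Finset W, D.card ≤ n → ∃ w, ∀ u ∈ D, (k : ℕ∞) < H.edist u w)
    (v : V) (Z : Finset W) (hZ : Z.card ≤ n) (h : ∀ i, ∃ z ∈ Z, Abs G H k a b v i z) : False := by
  obtain ⟨w, hw⟩ := hH Z hZ
  obtain ⟨i, hi⟩ := hcov v w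
  obtain ⟨z, hz, hz'⟩ := h i
  exact absurd (hz' w hi) (not_le.mpr (hw z hz))

include hcov hG in
theorem exists_nb (l : ι) : ∃ i, i ≠ l ∧ Rd G H a b l i := by
  obtain ⟨v, hv⟩ := hG (a l)
  obtain ⟨i, hi⟩ := hcov v (b l)
  have hil : i ≠ l := by
    rintro rfl
    exact absurd (le_trans (le_self_add) hi) (not_le.mpr hv)
  refine ⟨i, hil, ?_⟩
  by_contra hcon
  unfold Rd at hcon
  rw [not_le] at hcon
  apply absurd _ (not_le.mpr hv)
  calc G.edist (a l) v ≤ G.edist (a l) (a i) + G.edist (a i) v := G.edist_triangle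
    _ ≤ H.edist (b l) (b i) + G.edist (a i) v := by gcongr
    _ = G.edist (a i) v + H.edist (b i) (b l) := by rw [add_comm, H.edist_comm]
    _ ≤ k := hi

/-! ### three indices -/

section three
variable (hH : ∀ D : Finset W, D.card ≤ 1 → ∃ w, ∀ u ∈ D, (k : ℕ∞) < H.edist u w)

include hcov hG hH in
theorem B3 (l p q : ι) (hall : ∀ i, i = l ∨ i = p ∨ i = q) (h1 : Rd G H a b p q) : False := by
  classical
  obtain ⟨v, hv⟩ := hG (a l)
  obtain ⟨z, hz1, hz2⟩ := abs_merge (k := k) v h1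
  refine contra hcov hH v {z} (by simp) ?_
  intro i
  refine ⟨z, by simp, ?_⟩
  rcases hall i with rfl | rfl | rfl
  · exact abs_far _ hv
  · exact hz1
  · exact hz2

end three

/-! ### five indices -/

section five
variable (hH : ∀ D : Finset W, D.card ≤ 2 → ∃ w, ∀ u ∈ D, (k : ℕ∞) < H.edist u w)

include hcov hG hH in
theorem B5 (l p q r s : ι) (hall : ∀ i, i = l ∨ i = p ∨ i = q ∨ i = r ∨ i = s)
    (h1 : Rd G H a b p q) (h2 : Rd G H a b r s) : False := by
  classical
  obtain ⟨v, hv⟩ := hG (a l)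
  obtain ⟨z, hz1, hz2⟩ := abs_merge (k := k) v h1
  obtain ⟨z', hz1', hz2'⟩ := abs_merge (k := k) v h2
  refine contra hcov hH v {z, z'} (Finset.card_le_two) ?_
  intro i
  rcases hall i with rfl | rfl | rfl | rfl | rfl
  · exact ⟨z, by simp, abs_far _ hv⟩
  · exact ⟨z, by simp, hz1⟩
  · exact ⟨z, by simp, hz2⟩
  · exact ⟨z', by simp, hz1'⟩
  · exact ⟨z', by simp, hz2'⟩

include hcov hH in
theorem A5 (l x y z r : ι) (hall : ∀ i, i = l ∨ i = x ∨ i = y ∨ i = z ∨ i = r)
    (h1 : Rd G H a b l x) (h2 : Rd G H a b l y) (h3 : Rd G H a b l z) : False := by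
  classical
  refine contra hcov hH (a l) {b l, b r} (Finset.card_le_two) ?_
  intro i
  rcases hall i with rfl | rfl | rfl | rfl | rfl
  · exact ⟨_, by simp, abs_self _ _⟩
  · exact ⟨b l, by simp, abs_star h1⟩
  · exact ⟨b l, by simp, abs_star h2⟩
  · exact ⟨b l, by simp, abs_star h3⟩
  · exact ⟨b i, by simp, abs_self _ _⟩

end five

/-! ### seven indices -/

section seven
variable (hH : ∀ D : Finset W, D.card ≤ 3 → ∃ w, ∀ u ∈ D, (k : ℕ∞) < H.edist u w)

include hcov hG hH in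
theorem B7 (l p q r s t u : ι)
    (hall : ∀ i, i = l ∨ i = p ∨ i = q ∨ i = r ∨ i = s ∨ i = t ∨ i = u)
    (h1 : Rd G H a b p q) (h2 : Rd G H a b r s) (h3 : Rd G H a b t u) : False := by
  classical
  obtain ⟨v, hv⟩ := hG (a l)
  obtain ⟨z, hz1, hz2⟩ := abs_merge (k := k) v h1
  obtain ⟨z', hz1', hz2'⟩ := abs_merge (k := k) v h2
  obtain ⟨z'', hz1'', hz2''⟩ := abs_merge (k := k) v h3
  refine contra hcov hH v {z, z', z''} (Finset.card_le_three) ?_
  intro i
  rcases hall i with rfl | rfl | rfl | rfl | rfl | rfl | rfl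
  · exact ⟨z, by simp, abs_far _ hv⟩
  · exact ⟨z, by simp, hz1⟩
  · exact ⟨z, by simp, hz2⟩
  · exact ⟨z', by simp, hz1'⟩
  · exact ⟨z', by simp, hz2'⟩
  · exact ⟨z'', by simp, hz1''⟩
  · exact ⟨z'', by simp, hz2''⟩

include hcov hH in
theorem A7 (l x y z p q r : ι)
    (hall : ∀ i, i = l ∨ i = x ∨ i = y ∨ i = z ∨ i = p ∨ i = q ∨ i = r)
    (h1 : Rd G H a b l x) (h2 : Rd G H a b l y) (h3 : Rd G H a b l z)
    (h4 : Rd G H a b p q) : False := by
  classical
  obtain ⟨z', hz1', hz2'⟩ := abs_merge (k := k) (a l) h4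
  refine contra hcov hH (a l) {b l, z', b r} (Finset.card_le_three) ?_
  intro i
  rcases hall i with rfl | rfl | rfl | rfl | rfl | rfl | rfl
  · exact ⟨_, by simp, abs_self _ _⟩
  · exact ⟨b l, by simp, abs_star h1⟩
  · exact ⟨b l, by simp, abs_star h2⟩
  · exact ⟨b l, by simp, abs_star h3⟩
  · exact ⟨z', by simp, hz1'⟩
  · exact ⟨z', by simp, hz2'⟩
  · exact ⟨b i, by simp, abs_self _ _⟩

include hcov hH in
theorem A7' (l x y z p q r : ι)
    (hall : ∀ i, i = l ∨ i = x ∨ i = y ∨ i = z ∨ i = p ∨ i = q ∨ i = r)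
    (h1 : Rd G H a b l x) (h2 : Rd G H a b l y) (h3 : Rd G H a b l z)
    (h4 : Rd G H a b l p) : False := by
  classical
  refine contra hcov hH (a l) {b l, b q, b r} (Finset.card_le_three) ?_
  intro i
  rcases hall i with rfl | rfl | rfl | rfl | rfl | rfl | rfl
  · exact ⟨_, by simp, abs_self _ _⟩
  · exact ⟨b l, by simp, abs_star h1⟩
  · exact ⟨b l, by simp, abs_star h2⟩
  · exact ⟨b l, by simp, abs_star h3⟩
  · exact ⟨b l, by simp, abs_star h4⟩
  · exact ⟨b i, by simp, abs_self _ _⟩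
  · exact ⟨b i, by simp, abs_self _ _⟩

/-- two of the three remaining indices attached to the edge `p q` -/
theorem step1 (p q r s u u' u'' : ι)
    (hall : ∀ i, i = p ∨ i = q ∨ i = r ∨ i = s ∨ i = u ∨ i = u' ∨ i = u'')
    (h1 : Rd G H a b p q) (h2 : Rd G H a b r s)
    (hu : Rd G H a b u p ∨ Rd G H a b u q) (hu' : Rd G H a b u' p ∨ Rd G H a b u' q)
    (hcov : ∀ v w, ∃ i, G.edist (a i) v + H.edist (b i) w ≤ (k:ℕ∞))
    (hG : ∀ u : V, ∃ v : V, (k : ℕ∞) < G.edist u v)
    (hH : ∀ D : Finset W, D.card ≤ 3 → ∃ w, ∀ u ∈ D, (k : ℕ∞) < H.edist u w) : False := by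
  rcases hu with hu | hu <;> rcases hu' with hu' | hu'
  · exact A7 hcov hH p q u u' r s u'' (fun i => by have := hall i; tauto) h1 hu.symm hu'.symm h2
  · exact B7 hcov hG hH u'' u p u' q r s (fun i => by have := hall i; tauto) hu hu' h2
  · exact B7 hcov hG hH u'' u q u' p r s (fun i => by have := hall i; tauto) hu hu' h2
  · exact A7 hcov hH q p u u' r s u'' (fun i => by have := hall i; tauto) h1.symm hu.symm hu'.symm h2

/-- two disjoint edges are impossible -/
theorem step2 (p q r s u u' u'' : ι)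
    (hall : ∀ i, i = p ∨ i = q ∨ i = r ∨ i = s ∨ i = u ∨ i = u' ∨ i = u'')
    (h1 : Rd G H a b p q) (h2 : Rd G H a b r s)
    (hcov : ∀ v w, ∃ i, G.edist (a i) v + H.edist (b i) w ≤ (k:ℕ∞))
    (hG : ∀ u : V, ∃ v : V, (k : ℕ∞) < G.edist u v)
    (hH : ∀ D : Finset W, D.card ≤ 3 → ∃ w, ∀ u ∈ D, (k : ℕ∞) < H.edist u w) : False := by
  have nouu' : ¬ Rd G H a b u u' := fun h =>
    B7 hcov hG hH u'' p q r s u u' (fun i => by have := hall i; tauto) h1 h2 h
  have nouu'' : ¬ Rd G H a b u u'' := fun h =>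
    B7 hcov hG hH u' p q r s u u'' (fun i => by have := hall i; tauto) h1 h2 h
  have nou'u'' : ¬ Rd G H a b u' u'' := fun h =>
    B7 hcov hG hH u p q r s u' u'' (fun i => by have := hall i; tauto) h1 h2 h
  have key : ∀ x ∈ ({u, u', u''} : Set ι), (Rd G H a b x p ∨ Rd G H a b x q) ∨
      (Rd G H a b x r ∨ Rd G H a b x s) := by
    intro x hx
    obtain ⟨i, hi, hR⟩ := exists_nb hcov hG x
    rcases hall i with rfl | rfl | rfl | rfl | rfl | rfl | rfl
    · tauto
    · tauto
    · tauto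
    · tauto
    all_goals
      exfalso
      rcases hx with rfl | rfl | rfl
      all_goals first
        | exact hi rfl
        | exact nouu' hR
        | exact nouu' hR.symm
        | exact nouu'' hR
        | exact nouu'' hR.symm
        | exact nou'u'' hR
        | exact nou'u'' hR.symm
  have k1 := key u (by simp)
  have k2 := key u' (by simp)
  have k3 := key u'' (by simp)
  rcases k1 with k1 | k1 <;> rcases k2 with k2 | k2 <;> rcases k3 with k3 | k3
  · exact step1 p q r s u u' u'' (fun i => by have := hall i; tauto) h1 h2 k1 k2 hcov hG hH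
  · exact step1 p q r s u u' u'' (fun i => by have := hall i; tauto) h1 h2 k1 k2 hcov hG hH
  · exact step1 p q r s u u'' u' (fun i => by have := hall i; tauto) h1 h2 k1 k3 hcov hG hH
  · exact step1 r s p q u' u'' u (fun i => by have := hall i; tauto) h2 h1 k2 k3 hcov hG hH
  · exact step1 p q r s u' u'' u (fun i => by have := hall i; tauto) h1 h2 k2 k3 hcov hG hH
  · exact step1 r s p q u u'' u' (fun i => by have := hall i; tauto) h2 h1 k1 k3 hcov hG hH
  · exact step1 r s p q u u' u'' (fun i => by have := hall i; tauto) h2 h1 k1 k2 hcov hG hH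
  · exact step1 r s p q u u' u'' (fun i => by have := hall i; tauto) h2 h1 k1 k2 hcov hG hH

/-- no configuration with seven indices -/
theorem final7 (p q u1 u2 u3 u4 u5 : ι)
    (hall : ∀ i, i = p ∨ i = q ∨ i = u1 ∨ i = u2 ∨ i = u3 ∨ i = u4 ∨ i = u5)
    (h1 : Rd G H a b p q)
    (hcov : ∀ v w, ∃ i, G.edist (a i) v + H.edist (b i) w ≤ (k:ℕ∞))
    (hG : ∀ u : V, ∃ v : V, (k : ℕ∞) < G.edist u v)
    (hH : ∀ D : Finset W, D.card ≤ 3 → ∃ w, ∀ u ∈ D, (k : ℕ∞) < H.edist u w) : False := by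
  have S : ∀ x y x' y' z z' z'' : ι,
      (∀ i, i = x ∨ i = y ∨ i = x' ∨ i = y' ∨ i = z ∨ i = z' ∨ i = z'') →
      Rd G H a b x y → Rd G H a b x' y' → False := fun x y x' y' z z' z'' hh e e' =>
    step2 x y x' y' z z' z'' hh e e' hcov hG hH
  have e1 : Rd G H a b u1 p ∨ Rd G H a b u1 q := by
    obtain ⟨i, hi, hR⟩ := exists_nb hcov hG u1
    rcases hall i with rfl | rfl | rfl | rfl | rfl | rfl | rfl
    · exact Or.inl hR
    · exact Or.inr hR
    · exact absurd rfl hi
    · exact (S p q u1 i u3 u4 u5 (fun i => by have := hall i; tauto) h1 hR).elim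
    · exact (S p q u1 i u2 u4 u5 (fun i => by have := hall i; tauto) h1 hR).elim
    · exact (S p q u1 i u2 u3 u5 (fun i => by have := hall i; tauto) h1 hR).elim
    · exact (S p q u1 i u2 u3 u4 (fun i => by have := hall i; tauto) h1 hR).elim
  have e2 : Rd G H a b u2 p ∨ Rd G H a b u2 q := by
    obtain ⟨i, hi, hR⟩ := exists_nb hcov hG u2
    rcases hall i with rfl | rfl | rfl | rfl | rfl | rfl | rfl
    · exact Or.inl hR
    · exact Or.inr hR
    · exact (S p q u2 i u3 u4 u5 (fun i => by have := hall i; tauto) h1 hR).elim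
    · exact absurd rfl hi
    · exact (S p q u2 i u1 u4 u5 (fun i => by have := hall i; tauto) h1 hR).elim
    · exact (S p q u2 i u1 u3 u5 (fun i => by have := hall i; tauto) h1 hR).elim
    · exact (S p q u2 i u1 u3 u4 (fun i => by have := hall i; tauto) h1 hR).elim
  have e3 : Rd G H a b u3 p ∨ Rd G H a b u3 q := by
    obtain ⟨i, hi, hR⟩ := exists_nb hcov hG u3
    rcases hall i with rfl | rfl | rfl | rfl | rfl | rfl | rfl
    · exact Or.inl hR
    · exact Or.inr hR
    · exact (S p q u3 i u2 u4 u5 (fun i => by have := hall i; tauto) h1 hR).elim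
    · exact (S p q u3 i u1 u4 u5 (fun i => by have := hall i; tauto) h1 hR).elim
    · exact absurd rfl hi
    · exact (S p q u3 i u1 u2 u5 (fun i => by have := hall i; tauto) h1 hR).elim
    · exact (S p q u3 i u1 u2 u4 (fun i => by have := hall i; tauto) h1 hR).elim
  have e4 : Rd G H a b u4 p ∨ Rd G H a b u4 q := by
    obtain ⟨i, hi, hR⟩ := exists_nb hcov hG u4
    rcases hall i with rfl | rfl | rfl | rfl | rfl | rfl | rfl
    · exact Or.inl hR
    · exact Or.inr hR
    · exact (S p q u4 i u2 u3 u5 (fun i => by have := hall i; tauto) h1 hR).elim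
    · exact (S p q u4 i u1 u3 u5 (fun i => by have := hall i; tauto) h1 hR).elim
    · exact (S p q u4 i u1 u2 u5 (fun i => by have := hall i; tauto) h1 hR).elim
    · exact absurd rfl hi
    · exact (S p q u4 i u1 u2 u3 (fun i => by have := hall i; tauto) h1 hR).elim
  rcases e1 with e1 | e1 <;> rcases e2 with e2 | e2 <;> rcases e3 with e3 | e3 <;>
    rcases e4 with e4 | e4
  · exact A7' hcov hH p u1 u2 u3 u4 u5 q (fun i => by have := hall i; tauto)
      e1.symm e2.symm e3.symm e4.symm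
  · exact S u1 p u4 q u2 u3 u5 (fun i => by have := hall i; tauto) e1 e4
  · exact S u1 p u3 q u2 u4 u5 (fun i => by have := hall i; tauto) e1 e3
  · exact S u1 p u3 q u2 u4 u5 (fun i => by have := hall i; tauto) e1 e3
  · exact S u1 p u2 q u3 u4 u5 (fun i => by have := hall i; tauto) e1 e2
  · exact S u1 p u2 q u3 u4 u5 (fun i => by have := hall i; tauto) e1 e2
  · exact S u1 p u2 q u3 u4 u5 (fun i => by have := hall i; tauto) e1 e2
  · exact S u1 p u2 q u3 u4 u5 (fun i => by have := hall i; tauto) e1 e2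
  · exact S u1 q u2 p u3 u4 u5 (fun i => by have := hall i; tauto) e1 e2
  · exact S u1 q u2 p u3 u4 u5 (fun i => by have := hall i; tauto) e1 e2
  · exact S u1 q u2 p u3 u4 u5 (fun i => by have := hall i; tauto) e1 e2
  · exact S u1 q u2 p u3 u4 u5 (fun i => by have := hall i; tauto) e1 e2
  · exact S u1 q u3 p u2 u4 u5 (fun i => by have := hall i; tauto) e1 e3
  · exact S u1 q u3 p u2 u4 u5 (fun i => by have := hall i; tauto) e1 e3
  · exact S u1 q u4 p u2 u3 u5 (fun i => by have := hall i; tauto) e1 e4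
  · exact A7' hcov hH q u1 u2 u3 u4 u5 p (fun i => by have := hall i; tauto)
      e1.symm e2.symm e3.symm e4.symm

end seven

/-- no configuration with five indices -/
theorem final5 (p q u1 u2 u3 : ι)
    (hall : ∀ i, i = p ∨ i = q ∨ i = u1 ∨ i = u2 ∨ i = u3)
    (h1 : Rd G H a b p q)
    (hcov : ∀ v w, ∃ i, G.edist (a i) v + H.edist (b i) w ≤ (k:ℕ∞))
    (hG : ∀ u : V, ∃ v : V, (k : ℕ∞) < G.edist u v)
    (hH : ∀ D : Finset W, D.card ≤ 2 → ∃ w, ∀ u ∈ D, (k : ℕ∞) < H.edist u w) : False := by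
  have S : ∀ x y x' y' z : ι,
      (∀ i, i = x ∨ i = y ∨ i = x' ∨ i = y' ∨ i = z) →
      Rd G H a b x y → Rd G H a b x' y' → False := fun x y x' y' z hh e e' =>
    B5 hcov hG hH z x y x' y' (fun i => by have := hh i; tauto) e e'
  have e1 : Rd G H a b u1 p ∨ Rd G H a b u1 q := by
    obtain ⟨i, hi, hR⟩ := exists_nb hcov hG u1
    rcases hall i with rfl | rfl | rfl | rfl | rfl
    · exact Or.inl hR
    · exact Or.inr hR
    · exact absurd rfl hi
    · exact (S p q u1 i u3 (fun i => by have := hall i; tauto) h1 hR).elim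
    · exact (S p q u1 i u2 (fun i => by have := hall i; tauto) h1 hR).elim
  have e2 : Rd G H a b u2 p ∨ Rd G H a b u2 q := by
    obtain ⟨i, hi, hR⟩ := exists_nb hcov hG u2
    rcases hall i with rfl | rfl | rfl | rfl | rfl
    · exact Or.inl hR
    · exact Or.inr hR
    · exact (S p q u2 i u3 (fun i => by have := hall i; tauto) h1 hR).elim
    · exact absurd rfl hi
    · exact (S p q u2 i u1 (fun i => by have := hall i; tauto) h1 hR).elim
  have e3 : Rd G H a b u3 p ∨ Rd G H a b u3 q := by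
    obtain ⟨i, hi, hR⟩ := exists_nb hcov hG u3
    rcases hall i with rfl | rfl | rfl | rfl | rfl
    · exact Or.inl hR
    · exact Or.inr hR
    · exact (S p q u3 i u2 (fun i => by have := hall i; tauto) h1 hR).elim
    · exact (S p q u3 i u1 (fun i => by have := hall i; tauto) h1 hR).elim
    · exact absurd rfl hi
  rcases e1 with e1 | e1 <;> rcases e2 with e2 | e2 <;> rcases e3 with e3 | e3
  · exact A5 hcov hH p u1 u2 u3 q (fun i => by have := hall i; tauto) e1.symm e2.symm e3.symm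
  · exact S u1 p u3 q u2 (fun i => by have := hall i; tauto) e1 e3
  · exact S u1 p u2 q u3 (fun i => by have := hall i; tauto) e1 e2
  · exact S u1 p u2 q u3 (fun i => by have := hall i; tauto) e1 e2
  · exact S u1 q u2 p u3 (fun i => by have := hall i; tauto) e1 e2
  · exact S u1 q u2 p u3 (fun i => by have := hall i; tauto) e1 e2
  · exact S u1 q u3 p u2 (fun i => by have := hall i; tauto) e1 e3
  · exact A5 hcov hH q u1 u2 u3 p (fun i => by have := hall i; tauto) e1.symm e2.symm e3.symm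

theorem fin7 (a : Fin 7 → V) (b : Fin 7 → W)
    (hcov : ∀ v w, ∃ i, G.edist (a i) v + H.edist (b i) w ≤ (k:ℕ∞))
    (hG : ∀ u : V, ∃ v : V, (k : ℕ∞) < G.edist u v)
    (hH : ∀ D : Finset W, D.card ≤ 3 → ∃ w, ∀ u ∈ D, (k : ℕ∞) < H.edist u w) : False := by
  obtain ⟨i, hi, hR⟩ := exists_nb hcov hG 0
  fin_cases i
  · exact hi rfl
  · exact final7 0 1 2 3 4 5 6 (by decide) hR hcov hG hH
  · exact final7 0 2 1 3 4 5 6 (by decide) hR hcov hG hH
  · exact final7 0 3 1 2 4 5 6 (by decide) hR hcov hG hH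
  · exact final7 0 4 1 2 3 5 6 (by decide) hR hcov hG hH
  · exact final7 0 5 1 2 3 4 6 (by decide) hR hcov hG hH
  · exact final7 0 6 1 2 3 4 5 (by decide) hR hcov hG hH

theorem fin5 (a : Fin 5 → V) (b : Fin 5 → W)
    (hcov : ∀ v w, ∃ i, G.edist (a i) v + H.edist (b i) w ≤ (k:ℕ∞))
    (hG : ∀ u : V, ∃ v : V, (k : ℕ∞) < G.edist u v)
    (hH : ∀ D : Finset W, D.card ≤ 2 → ∃ w, ∀ u ∈ D, (k : ℕ∞) < H.edist u w) : False := by
  obtain ⟨i, hi, hR⟩ := exists_nb hcov hG 0
  fin_cases i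
  · exact hi rfl
  · exact final5 0 1 2 3 4 (by decide) hR hcov hG hH
  · exact final5 0 2 1 3 4 (by decide) hR hcov hG hH
  · exact final5 0 3 1 2 4 (by decide) hR hcov hG hH
  · exact final5 0 4 1 2 3 (by decide) hR hcov hG hH

theorem fin3 (a : Fin 3 → V) (b : Fin 3 → W)
    (hcov : ∀ v w, ∃ i, G.edist (a i) v + H.edist (b i) w ≤ (k:ℕ∞))
    (hG : ∀ u : V, ∃ v : V, (k : ℕ∞) < G.edist u v)
    (hH : ∀ D : Finset W, D.card ≤ 1 → ∃ w, ∀ u ∈ D, (k : ℕ∞) < H.edist u w) : False := by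
  obtain ⟨i, hi, hR⟩ := exists_nb hcov hG 0
  fin_cases i
  · exact hi rfl
  · exact B3 hcov hG hH 2 0 1 (by decide) hR
  · exact B3 hcov hG hH 1 0 2 (by decide) hR

end cov

theorem idx {α : Type} (D : Finset α) (N : ℕ) (hN : D.card ≤ N) (hne : D.Nonempty) :
    ∃ f : Fin N → α, ∀ x ∈ D, ∃ i, f i = x := by
  obtain ⟨d, hd⟩ := hne
  refine ⟨fun i => if h : (i : ℕ) < D.card then ((D.equivFin.symm ⟨i, h⟩ : D) : α) else d, ?_⟩
  intro x hx
  refine ⟨⟨D.equivFin ⟨x, hx⟩, lt_of_lt_of_le (D.equivFin ⟨x, hx⟩).2 hN⟩, ?_⟩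
  simp

theorem proj_right [Fintype V] [Fintype W] [Nonempty V] :
    gam k H ≤ gam k (G □ H) := by
  classical
  obtain ⟨D, hD, hdom⟩ := gam_spec (k := k) (G := G □ H)
  rw [← hD]
  refine le_trans (gam_le (D.image Prod.snd) ?_) Finset.card_image_le
  intro w
  obtain ⟨u, hu, hu'⟩ := hdom (Classical.arbitrary V, w)
  refine ⟨u.2, Finset.mem_image_of_mem _ hu, ?_⟩
  rw [edist_boxProd] at hu'
  exact le_trans le_add_self hu'

theorem proj_left [Fintype V] [Fintype W] [Nonempty W] :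
    gam k G ≤ gam k (G □ H) := by
  classical
  obtain ⟨D, hD, hdom⟩ := gam_spec (k := k) (G := G □ H)
  rw [← hD]
  refine le_trans (gam_le (D.image Prod.fst) ?_) Finset.card_image_le
  intro v
  obtain ⟨u, hu, hu'⟩ := hdom (v, Classical.arbitrary W)
  refine ⟨u.1, Finset.mem_image_of_mem _ hu, ?_⟩
  rw [edist_boxProd] at hu'
  exact le_trans le_self_add hu'

theorem gam_eq_zero_of_isEmpty [IsEmpty V] : gam k G = 0 := by
  have := gam_le (k := k) (G := G) ∅ (fun v => isEmptyElim v)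
  simpa using this

theorem main [Fintype V] [Fintype W] (hG2 : gam k G ≤ 2) (hH4 : gam k H ≤ 4) :
    gam k G * gam k H ≤ gam k (G □ H) := by
  classical
  rcases isEmpty_or_nonempty V with hV | hV
  · rw [gam_eq_zero_of_isEmpty (G := G)]; simp
  rcases isEmpty_or_nonempty W with hW | hW
  · rw [gam_eq_zero_of_isEmpty (G := H)]; simp
  have pr := proj_right (k := k) (G := G) (H := H)
  have pl := proj_left (k := k) (G := G) (H := H)
  rcases Nat.lt_or_ge (gam k G) 2 with h2 | h2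
  · calc gam k G * gam k H ≤ 1 * gam k H := Nat.mul_le_mul_right _ (by omega)
      _ ≤ _ := by rw [one_mul]; exact pr
  have hg2 : gam k G = 2 := le_antisymm hG2 h2
  rcases Nat.lt_or_ge (gam k H) 2 with h3 | h3
  · calc gam k G * gam k H ≤ gam k G * 1 := Nat.mul_le_mul_left _ (by omega)
      _ ≤ _ := by rw [mul_one]; exact pl
  by_contra hcon
  rw [not_le] at hcon
  obtain ⟨D, hD, hdom⟩ := gam_spec (k := k) (G := G □ H)
  have hG : ∀ u : V, ∃ v : V, (k : ℕ∞) < G.edist u v := by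
    intro u
    obtain ⟨v, hv⟩ := exists_far (k := k) (G := G) {u} (by rw [hg2]; simp)
    exact ⟨v, hv u (by simp)⟩
  have hne : D.Nonempty := by
    obtain ⟨u, hu, -⟩ := hdom (Classical.arbitrary V, Classical.arbitrary W)
    exact ⟨u, hu⟩
  have hcovN : ∀ N : ℕ, D.card ≤ N → ∃ (a : Fin N → V) (b : Fin N → W),
      ∀ v w, ∃ i, G.edist (a i) v + H.edist (b i) w ≤ (k:ℕ∞) := by
    intro N hN
    obtain ⟨f, hf⟩ := idx D N hN hne
    refine ⟨fun i => (f i).1, fun i => (f i).2, ?_⟩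
    intro v w
    obtain ⟨u, hu, hu'⟩ := hdom (v, w)
    obtain ⟨i, hi⟩ := hf u hu
    refine ⟨i, ?_⟩
    rw [edist_boxProd] at hu'
    show G.edist (f i).1 v + H.edist (f i).2 w ≤ (k:ℕ∞)
    rw [hi]
    exact hu'
  have hH : ∀ n : ℕ, n < gam k H → ∀ D : Finset W, D.card ≤ n →
      ∃ w, ∀ u ∈ D, (k : ℕ∞) < H.edist u w := by
    intro n hn D hD
    exact exists_far D (by omega)
  rw [hg2] at hcon
  have hcase : gam k H = 2 ∨ gam k H = 3 ∨ gam k H = 4 := by omega
  rcases hcase with h | h | h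
  · obtain ⟨a, b, hab⟩ := hcovN 3 (by omega)
    exact fin3 a b hab hG (hH 1 (by omega))
  · obtain ⟨a, b, hab⟩ := hcovN 5 (by omega)
    exact fin5 a b hab hG (hH 2 (by omega))
  · obtain ⟨a, b, hab⟩ := hcovN 7 (by omega)
    exact fin7 a b hab hG (hH 3 (by omega))

theorem gam_swap [Fintype V] [Fintype W] : gam k (H □ G) ≤ gam k (G □ H) := by
  classical
  obtain ⟨D, hD, hdom⟩ := gam_spec (k := k) (G := G □ H)
  rw [← hD]
  refine le_trans (gam_le (D.image Prod.swap) ?_) Finset.card_image_le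
  rintro ⟨w, v⟩
  obtain ⟨u, hu, hu'⟩ := hdom (v, w)
  refine ⟨u.swap, Finset.mem_image_of_mem _ hu, ?_⟩
  rw [edist_boxProd] at hu' ⊢
  rw [add_comm]
  exact hu'

end Pool.Agent.Q108.VZ
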